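import Pool.Agent.Helper94.GA.Goals

namespace Pool.Agent.Helper67.GA

open Pool.Agent.Helper94.GA
open scoped commutatorElement

/-- Joint eigenvector of a commuting family in a stable nonzero subspace. -/
theorem joint {K V ι : Type*} [Field K] [IsAlgClosed K] [AddCommGroup V] [Module K V]
    [FiniteDimensional K V] (T : ι → Module.End K V) (hT : ∀ i j v, T i (T j v) = T j (T i v))
    (E : Submodule K V) (hE : E ≠ ⊥) (hs : ∀ i, ∀ w ∈ E, T i w ∈ E) :
    ∃ v ∈ E, v ≠ 0 ∧ ∃ χ : ι → K, ∀ i, T i v = χ i • v := by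
  classical
  let P : Set (Submodule K V) := {W | W ≠ ⊥ ∧ W ≤ E ∧ ∀ i, ∀ w ∈ W, T i w ∈ W}
  have hP : P.Nonempty := ⟨E, hE, le_rfl, hs⟩
  obtain ⟨W, hW, hmin⟩ := WellFounded.has_min (wellFounded_lt (α := Submodule K V)) P hP
  obtain ⟨hW0, hWE, hWs⟩ := hW
  have key : ∀ i, ∃ c : K, ∀ w ∈ W, T i w = c • w := by
    intro i
    have hres : ∀ w ∈ W, T i w ∈ W := hWs i
    let R : Module.End K W := (T i).restrict hres
    have : Nontrivial W := (Submodule.nontrivial_iff_ne_bot).2 hW0
    obtain ⟨c, hc⟩ := Module.End.exists_eigenvalue R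
    obtain ⟨w, hw⟩ := hc.exists_hasEigenvector
    refine ⟨c, ?_⟩
    let W' : Submodule K V := W ⊓ Module.End.eigenspace (T i) c
    have hW' : W' ∈ P := by
      refine ⟨?_, inf_le_left.trans hWE, ?_⟩
      · intro h
        have h1 : (w : V) ∈ W' := by
          refine Submodule.mem_inf.2 ⟨w.2, ?_⟩
          rw [Module.End.mem_eigenspace_iff]
          have := hw.apply_eq_smul
          have h2 := congrArg (Subtype.val) this
          simpa [R] using h2
        rw [h] at h1
        have h3 : (w : V) = 0 := by simpa using h1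
        exact hw.2 (Subtype.ext h3)
      · intro j v hv
        have hv' := Submodule.mem_inf.1 hv
        refine Submodule.mem_inf.2 ⟨hWs j v hv'.1, ?_⟩
        rw [Module.End.mem_eigenspace_iff]
        have h1 := (Module.End.mem_eigenspace_iff).1 hv'.2
        rw [hT i j v, h1, map_smul]
    have h4 : ¬ W' < W := hmin W' hW'
    have h5 : W' = W := by
      by_contra h
      exact h4 (lt_of_le_of_ne inf_le_left h)
    intro v hv
    rw [← h5] at hv
    exact (Module.End.mem_eigenspace_iff).1 (Submodule.mem_inf.1 hv).2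
  choose χ hχ using key
  obtain ⟨v, hv, hv0⟩ := (Submodule.ne_bot_iff W).1 hW0
  exact ⟨v, hWE hv, hv0, χ, fun i => hχ i v hv⟩

/-- Additive functions on a group, as a space of functions. -/
def addFun (A : Type*) [Group A] (K : Type*) [Field K] : Submodule K (A → K) where
  carrier := {g | ∀ a b, g (a * b) = g a + g b}
  add_mem' := by
    intro g h hg hh a b
    simp only [Pi.add_apply]
    rw [hg a b, hh a b]; ring
  zero_mem' := by
    intro a b
    simp
  smul_mem' := by
    intro c g hg a b
    simp only [Pi.smul_apply, smul_eq_mul]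
    rw [hg a b]; ring

theorem addFun_mem {A : Type*} [Group A] {K : Type*} [Field K] {g : A → K} :
    g ∈ addFun A K ↔ ∀ a b, g (a * b) = g a + g b := Iff.rfl

theorem finDim (A : Type*) [Group A] (K : Type*) [Field K] (hA : Group.FG A) :
    FiniteDimensional K (addFun A K) := by
  classical
  obtain ⟨S, hS⟩ := hA.out
  let ev : addFun A K →ₗ[K] (S → K) :=
    { toFun := fun g s => g.1 s
      map_add' := by intro g h; ext s; simp
      map_smul' := by intro c g; ext s; simp }
  have hinj : Function.Injective ev := by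
    rw [← LinearMap.ker_eq_bot, LinearMap.ker_eq_bot']
    intro g hg
    have h1 : ∀ a : A, g.1 a = 0 := by
      intro a
      have ha : a ∈ Subgroup.closure (S : Set A) := by rw [hS]; trivial
      have hone : g.1 1 = 0 := by
        have := g.2 1 1
        simpa using this
      refine Subgroup.closure_induction (p := fun a _ => g.1 a = 0) ?_ hone ?_ ?_ ha
      · intro x hx
        exact congrFun hg ⟨x, hx⟩
      · intro x y _ _ hx hy
        rw [g.2 x y, hx, hy, add_zero]
      · intro x _ hx
        have := g.2 x x⁻¹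
        rw [mul_inv_cancel, hone, hx, zero_add] at this
        exact this.symm
    exact Subtype.ext (funext h1)
  exact FiniteDimensional.of_injective ev hinj

theorem JNT_gen {H : Type*} [Group H] {K : Type*} [Field K] [IsAlgClosed K] (A : Subgroup H)
    (hAn : A.Normal) (hAc : ∀ a ∈ A, ∀ b ∈ A, a * b = b * a) (hAfg : A.FG)
    (hcomm : commutator H ≤ A) (n₀ : H) (μ : K) (f : H → K) (hf : AddOn A f)
    (hfne : ∃ a ∈ A, f a ≠ 0) (hfe : ∀ a ∈ A, f (n₀ * a * n₀⁻¹) = μ * f a) :
    ∃ (χ f' : H → K), AddOn A f' ∧ (∃ a ∈ A, f' a ≠ 0) ∧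
        (∀ n, ∀ a ∈ A, f' (n * a * n⁻¹) = χ n * f' a) ∧ χ n₀ = μ := by
  classical
  have := hAn
  have : FiniteDimensional K (addFun A K) :=
    finDim A K ((Group.fg_iff_subgroup_fg A).2 hAfg)
  let T : H → Module.End K (addFun A K) := fun n =>
    { toFun := fun g => ⟨fun a => g.1 (MulAut.conjNormal n a), by
        intro a b
        change g.1 (MulAut.conjNormal n (a * b)) = g.1 (MulAut.conjNormal n a) +
          g.1 (MulAut.conjNormal n b)
        rw [map_mul]
        exact g.2 _ _⟩
      map_add' := by intro g h; rfl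
      map_smul' := by intro c g; rfl }
  have hTapp : ∀ n (g : addFun A K) (a : A), (T n g).1 a = g.1 (MulAut.conjNormal n a) :=
    fun n g a => rfl
  have hT : ∀ i j v, T i (T j v) = T j (T i v) := by
    intro i j v
    apply Subtype.ext
    funext a
    rw [hTapp, hTapp, hTapp, hTapp]
    refine congrArg v.1 (Subtype.ext ?_)
    simp only [MulAut.conjNormal_apply]
    have hc : ⁅i⁻¹, j⁻¹⁆ ∈ A :=
      hcomm (Subgroup.commutator_mem_commutator (Subgroup.mem_top _) (Subgroup.mem_top _))
    have h1 := hAc _ hc _ a.2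
    rw [commutatorElement_def] at h1
    simp only [inv_inv] at h1
    -- i⁻¹ j⁻¹ i j a = a i⁻¹ j⁻¹ i j
    have h2 : j * (i * (a : H) * i⁻¹) * j⁻¹ = j * i * ((a : H) * (i⁻¹ * j⁻¹ * i * j)) * j⁻¹ * i⁻¹ := by
      group
    rw [h2, ← h1]
    group
  let E : Submodule K (addFun A K) := Module.End.eigenspace (T n₀) μ
  let fA : addFun A K := ⟨fun a => f a, by
    intro a b
    exact hf a a.2 b b.2⟩
  have hfAE : fA ∈ E := by
    rw [Module.End.mem_eigenspace_iff]
    apply Subtype.ext
    funext a
    rw [hTapp]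
    change f (MulAut.conjNormal n₀ a : A) = μ * f a
    rw [MulAut.conjNormal_apply]
    exact hfe a a.2
  have hfA0 : fA ≠ 0 := by
    obtain ⟨a, ha, hne⟩ := hfne
    intro h
    apply hne
    have := congrFun (congrArg Subtype.val h) ⟨a, ha⟩
    exact this
  have hE : E ≠ ⊥ := by
    intro h
    rw [h] at hfAE
    exact hfA0 (by simpa using hfAE)
  have hs : ∀ i, ∀ w ∈ E, T i w ∈ E := by
    intro i w hw
    rw [Module.End.mem_eigenspace_iff] at hw ⊢
    rw [hT, hw, map_smul]
  obtain ⟨v, hvE, hv0, χ, hχ⟩ := joint T hT E hE hs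
  refine ⟨χ, fun h => if hh : h ∈ A then v.1 ⟨h, hh⟩ else 0, ?_, ?_, ?_, ?_⟩
  · intro a ha b hb
    simp only [ha, hb, A.mul_mem ha hb, dif_pos]
    exact v.2 ⟨a, ha⟩ ⟨b, hb⟩
  · by_contra h
    push Not at h
    apply hv0
    apply Subtype.ext
    funext a
    have := h a.1 a.2
    simpa using this
  · intro n a ha
    have h1 : n * a * n⁻¹ ∈ A := hAn.conj_mem a ha n
    simp only [ha, h1, dif_pos]
    have h2 := congrFun (congrArg Subtype.val (hχ n)) ⟨a, ha⟩
    rw [hTapp] at h2
    have h3 : (MulAut.conjNormal n (⟨a, ha⟩ : A)) = ⟨n * a * n⁻¹, h1⟩ := by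
      apply Subtype.ext
      simp [MulAut.conjNormal_apply]
    rw [h3] at h2
    exact h2
  · have h1 := (Module.End.mem_eigenspace_iff).1 hvE
    have h2 := hχ n₀
    rw [h1] at h2
    by_contra hne
    apply hv0
    apply Subtype.ext
    funext a
    have h3 : μ * v.1 a = χ n₀ * v.1 a := congrFun (congrArg Subtype.val h2) a
    have h4 : (χ n₀ - μ) * v.1 a = 0 := by rw [sub_mul, h3, sub_self]
    rcases mul_eq_zero.1 h4 with h5 | h5
    · exact absurd (sub_eq_zero.1 h5) hne
    · exact h5

theorem JNT : JNT_stmt := by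
  intro H _ A hAn hAc hAfg hcomm n₀ μ f hf hfne hfe
  exact JNT_gen A hAn hAc hAfg hcomm n₀ μ f hf hfne hfe

end Pool.Agent.Helper67.GA
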